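import Pool.Agent.Helper7.PX.Goals
import Pool.Agent.Helper7.PX.RA
import Pool.Agent.Helper88.RR.KI
import Pool.Agent.Helper88.CG.VP

/-!
Packet TL of project PX (MP_69be96_nt): the tail of the weight and simple facts.
-/

set_option autoImplicit false

open Finset Filter Topology

open scoped Classical

namespace Pool.Agent.Helper77.PX

open Pool.Agent.Helper88.PP (pr Rg om Sf SS uu vv ee LA VV QQ cost)
open Pool.Agent.Helper88.RR (gg ab TB nz Db VM LA_ne ee_le sum_wt om_nonneg gg_nonneg gg_succ)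
open Pool.Agent.Helper88.CG (qE mE)
open Pool.Agent.Helper7.PX

/-- `E^2 2^(-qE E / 2)` tends to zero -/
theorem small (η : ℝ) (hη : 0 < η) : ∃ E0 : ℕ, ∀ E : ℕ, E0 ≤ E →
    (E : ℝ) ^ 2 * (1 / 2 ^ (qE E / 2)) ≤ η := by
  have e2 : Tendsto (fun k : ℕ => ((2 : ℝ) ^ (16 * k + 16)) ^ 2 * (1 / 2 ^ (2 ^ k / 2))) atTop
      (𝓝 0) := by
    have g1 : Tendsto (fun k : ℕ => (2 : ℝ) ^ 32 * ((((k : ℝ)) ^ 1 / (2 : ℝ) ^ k))) atTop
        (𝓝 ((2 : ℝ) ^ 32 * 0)) :=
      (tendsto_pow_const_div_const_pow_of_one_lt 1 (by norm_num)).const_mul _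
    rw [mul_zero] at g1
    have g2 : ∀ᶠ k : ℕ in atTop, 33 * k + 1 ≤ 2 ^ k / 2 := by
      have h3 : Tendsto (fun k : ℕ => ((k : ℝ)) ^ 1 / (2 : ℝ) ^ k) atTop (𝓝 0) :=
        tendsto_pow_const_div_const_pow_of_one_lt 1 (by norm_num)
      have h4 := h3.eventually (gt_mem_nhds (show (0 : ℝ) < 1 / 200 by norm_num))
      filter_upwards [h4, eventually_ge_atTop 10] with k hk hk10
      rw [pow_one, div_lt_div_iff₀ (by positivity) (by norm_num)] at hk
      have h5 : k * 200 < 1 * 2 ^ k := by exact_mod_cast hk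
      omega
    refine squeeze_zero' (Eventually.of_forall fun k => by positivity) ?_ g1
    filter_upwards [g2, eventually_ge_atTop 1] with k hk hk1
    have h6 : (2 : ℝ) ^ (33 * k) ≤ 2 ^ (2 ^ k / 2) :=
      pow_le_pow_right₀ (by norm_num) (by omega)
    have h7 : ((2 : ℝ) ^ (16 * k + 16)) ^ 2 = 2 ^ 32 * 2 ^ (32 * k) := by
      rw [← pow_mul, ← pow_add]
      congr 1
      ring
    have h8 : (2 : ℝ) ^ (33 * k) = 2 ^ (32 * k) * 2 ^ k := by
      rw [← pow_add]
      congr 1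
      ring
    have hk1' : (1 : ℝ) ≤ k := by exact_mod_cast hk1
    rw [h7, pow_one]
    have h9 : (1 : ℝ) / 2 ^ (2 ^ k / 2) ≤ 1 / 2 ^ (33 * k) :=
      one_div_le_one_div_of_le (by positivity) h6
    have h10 : (2 : ℝ) ^ 32 * 2 ^ (32 * k) * (1 / 2 ^ (33 * k)) = 2 ^ 32 * (1 / 2 ^ k) := by
      rw [h8]
      field_simp
    have h11 : (2 : ℝ) ^ 32 * (1 / 2 ^ k) ≤ 2 ^ 32 * ((k : ℝ) / 2 ^ k) := by
      apply mul_le_mul_of_nonneg_left _ (by positivity)
      exact div_le_div_of_nonneg_right hk1' (by positivity)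
    exact (mul_le_mul_of_nonneg_left h9 (by positivity)).trans (h10.le.trans h11)
  obtain ⟨k0, hk0⟩ := eventually_atTop.1 (e2.eventually (gt_mem_nhds hη))
  refine ⟨2 ^ (16 * k0), fun E hE2 => ?_⟩
  have hE0 : E ≠ 0 := by
    have : 0 < 2 ^ (16 * k0) := by positivity
    omega
  have hL : 16 * k0 ≤ Nat.log 2 E := Nat.le_log_of_pow_le (by norm_num) hE2
  have hk : k0 ≤ Nat.log 2 E / 16 := by omega
  have hpow2 : E < 2 ^ (Nat.log 2 E + 1) := Nat.lt_pow_succ_log_self (by norm_num) E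
  have h9 : (E : ℝ) ≤ 2 ^ (16 * (Nat.log 2 E / 16) + 16) := by
    have h10 : E ≤ 2 ^ (16 * (Nat.log 2 E / 16) + 16) :=
      hpow2.le.trans (Nat.pow_le_pow_right (by norm_num) (by omega))
    exact_mod_cast h10
  have h11 := (hk0 _ hk).le
  refine le_trans ?_ h11
  have h12 : qE E = 2 ^ (Nat.log 2 E / 16) := rfl
  rw [h12]
  gcongr

theorem gg_zero (y z : ℕ) : gg y z 0 = 1 := by
  unfold Pool.Agent.Helper88.RR.gg
  simp

theorem VV_nonneg (z m m' : ℕ) : 0 ≤ VV z m m' := by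
  unfold Pool.Agent.Helper88.PP.VV
  exact Finset.sum_nonneg fun r _ => by positivity

theorem ab_nonneg (m q z r : ℕ) : 0 ≤ ab m q z r := by
  unfold Pool.Agent.Helper88.RR.ab
  have := VV_nonneg z m (q * m)
  positivity

theorem abs_cs_le (B : Finset ℕ) (t : ℝ) (ht : 1 ≤ t) (i : ℕ) : |cs B t i| ≤ t := by
  unfold cs
  split_ifs
  · rw [abs_of_nonneg (by linarith)]
  · rw [abs_neg, abs_one]
    exact ht

theorem nz_le {P : Finset ℕ} (r : P → ℕ) : nz r ≤ P.card := by
  unfold Pool.Agent.Helper88.RR.nz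
  refine (Finset.card_le_univ _).trans ?_
  rw [Fintype.card_coe]

/-- the contribution of `r` as a product -/
theorem gw_eq (E z y : ℕ) (B : Finset ℕ) (t : ℝ) {P : Finset ℕ} (r : P → ℕ) :
    gw y z (cw E z B t) r = gg y z (nz r) *
      ∏ i : P, (if r i = 0 then 1 else (cs B t i * ab (mE E) (qE E) z (r i)) ^ 2 *
        (Nat.totient (r i) : ℝ)) := by
  unfold gw cw
  rw [mul_left_comm, ← Finset.prod_pow, ← Finset.prod_mul_distrib]
  congr 1
  refine Finset.prod_congr rfl fun i _ => ?_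
  split_ifs <;> ring

theorem gw_nonneg (E z y : ℕ) (B : Finset ℕ) (t : ℝ) {P : Finset ℕ} (hP : P.card ≤ y)
    (r : P → ℕ) : 0 ≤ gw y z (cw E z B t) r := by
  rw [gw_eq]
  refine mul_nonneg (gg_nonneg y z _ ((nz_le r).trans hP)) (Finset.prod_nonneg fun i _ => ?_)
  split_ifs
  · exact zero_le_one
  · positivity

theorem one_le_DN (E z y : ℕ) (B : Finset ℕ) (t : ℝ) {P : Finset ℕ} (hP : P.card ≤ y) :
    1 ≤ DN E z y B t P := by
  unfold DN GD
  have h0 : (fun _ : P => 0) ∈ TE E z P := by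
    unfold TE Pool.Agent.Helper88.RR.TB
    rw [Finset.mem_filter, Fintype.mem_piFinset]
    exact ⟨fun i => Finset.mem_insert_self _ _, by simp [cost]⟩
  have h1 : nz (fun _ : P => 0) = 0 := by
    unfold Pool.Agent.Helper88.RR.nz
    simp
  have h2 : gw y z (cw E z B t) (fun _ : P => 0) = 1 := by
    rw [gw_eq, h1, gg_zero]
    simp
  have h3 := Finset.single_le_sum (f := fun r : P → ℕ => gw y z (cw E z B t) r) (s := TE E z P)
    (fun r _ => gw_nonneg E z y B t hP r) h0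
  exact h2.ge.trans h3

theorem bd_cw (E z : ℕ) (B : Finset ℕ) (t : ℝ) (ht : 1 ≤ t) (P : Finset ℕ) :
    Bd E z t (P := P) (cw E z B t) := by
  intro r _
  have h1 : |cw E z B t r| ≤ ∏ i : P, (if r i = 0 then 1 else t * ab (mE E) (qE E) z (r i)) := by
    unfold cw
    rw [Finset.abs_prod]
    refine Finset.prod_le_prod (fun i _ => abs_nonneg _) fun i _ => ?_
    split_ifs
    · rw [abs_one]
    · rw [abs_mul, abs_of_nonneg (ab_nonneg _ _ _ _)]
      exact mul_le_mul_of_nonneg_right (abs_cs_le B t ht i) (ab_nonneg _ _ _ _)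
  have h2 : 0 ≤ ∏ i : P, (if r i = 0 then 1 else t * ab (mE E) (qE E) z (r i)) :=
    (abs_nonneg _).trans h1
  exact h1.trans (le_mul_of_one_le_left h2 ht)

/-- the sum of the squares of the factors -/
theorem sum_cs (t : ℝ) {P B : Finset ℕ} (hBP : B ⊆ P) :
    ∑ i : P, cs B t i ^ 2 ≤ (P.card : ℝ) + t ^ 2 * B.card := by
  have h1 : ∀ i ∈ P, cs B t i ^ 2 ≤ 1 + (if i ∈ B then t ^ 2 else 0) := by
    intro i _
    unfold cs
    split_ifs
    · linarith
    · norm_num
  rw [Finset.sum_coe_sort P (fun i => cs B t i ^ 2)]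
  refine (Finset.sum_le_sum h1).trans ?_
  rw [Finset.sum_add_distrib, ← Finset.sum_filter, Finset.sum_const, Finset.sum_const,
    Finset.filter_mem_eq_inter, Finset.inter_eq_right.2 hBP]
  simp only [nsmul_eq_mul, mul_one]
  rw [mul_comm (B.card : ℝ)]

/-- the tail of the cost -/
theorem tail (E z y j : ℕ) (t : ℝ) (P B : Finset ℕ) (hBP : B ⊆ P) (hP : P.card ≤ y)
    (hV : VV z (mE E) (qE E * mE E) ≠ 0) (hj : 2 * (j * (qE E * mE E)) ≤ E / 16)
    (hc : 4 * (((P.card : ℝ) + t ^ 2 * B.card) * om y z * (1 / VV z (mE E) (qE E * mE E))) ≤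
      ((E / 16 : ℕ) : ℝ)) :
    2 ^ j * ∑ r ∈ (TE E z P).filter (fun r => E / 16 < cost z r + qE E * mE E),
      gw y z (cw E z B t) r ≤ DN E z y B t P := by
  have hVn := VV_nonneg z (mE E) (qE E * mE E)
  have hom := om_nonneg y z
  have hsum : ∑ i : P, ∑ s ∈ LA z (mE E) (qE E * mE E), (ee z s : ℝ) *
      ((cs B t i * ab (mE E) (qE E) z s) ^ 2 * (Nat.totient s : ℝ)) ≤
      ((P.card : ℝ) + t ^ 2 * B.card) * (1 / VV z (mE E) (qE E * mE E)) := by
    have h1 : ∀ i : P, ∑ s ∈ LA z (mE E) (qE E * mE E), (ee z s : ℝ) *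
        ((cs B t i * ab (mE E) (qE E) z s) ^ 2 * (Nat.totient s : ℝ)) =
        cs B t i ^ 2 * (1 / VV z (mE E) (qE E * mE E)) := by
      intro i
      rw [← sum_wt (mE E) (qE E) z hV, Finset.mul_sum]
      refine Finset.sum_congr rfl fun s _ => ?_
      ring
    rw [Finset.sum_congr rfl fun i _ => h1 i, ← Finset.sum_mul]
    exact mul_le_mul_of_nonneg_right (sum_cs t hBP) (by positivity)
  have h4 := ra P (LA z (mE E) (qE E * mE E)) (ee z)
    (fun i s => (cs B t i * ab (mE E) (qE E) z s) ^ 2 * (Nat.totient s : ℝ))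
    (gg y z) (om y z) (E / 16) (qE E * mE E) j (fun h => (LA_ne h).1 rfl) (fun r hr => ee_le hr)
    (fun i r => mul_nonneg (sq_nonneg _) (Nat.cast_nonneg _)) (om_nonneg y z)
    (fun k hk => gg_nonneg y z k (by rw [Fintype.card_coe] at hk; omega))
    (fun k hk => gg_succ y z k (by rw [Fintype.card_coe] at hk; omega)) hj
    (by
      refine le_trans ?_ hc
      refine mul_le_mul_of_nonneg_left ?_ (by norm_num)
      calc om y z * _ ≤ om y z *
            (((P.card : ℝ) + t ^ 2 * B.card) * (1 / VV z (mE E) (qE E * mE E))) :=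
            mul_le_mul_of_nonneg_left hsum hom
        _ = _ := by ring)
  have e1 : DN E z y B t P = ∑ r ∈ TE E z P, gg y z (nz r) *
      ∏ i : P, (if r i = 0 then 1 else (cs B t i * ab (mE E) (qE E) z (r i)) ^ 2 *
        (Nat.totient (r i) : ℝ)) := by
    unfold DN GD
    exact Finset.sum_congr rfl fun r _ => gw_eq E z y B t r
  rw [e1, Finset.sum_congr rfl fun r _ => gw_eq E z y B t r]
  unfold TE Pool.Agent.Helper88.RR.TB
  rw [Finset.filter_filter]
  exact h4

theorem tl : StmtTL := by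
  obtain ⟨c1, hc1, EV, hVP⟩ := Pool.Agent.Helper88.CG.vp
  set c : ℝ := min 1 (c1 / 100) with hc
  have hc0 : 0 < c := lt_min one_pos (by positivity)
  have hcl : c ≤ c1 / 100 := min_le_right _ _
  have hcone : c ≤ 1 := min_le_left _ _
  clear_value c
  refine ⟨c, hc0, hcone, fun t ht η hη => ?_⟩
  obtain ⟨E2, hE2⟩ := small η hη
  refine ⟨max (max EV E2) 300, ?_⟩
  intro E z y hE hz2 hEy P B hP hBP hPo
  have hEEV : EV ≤ E := le_trans (le_trans (le_max_left _ _) (le_max_left _ _)) hE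
  have hEE2 : E2 ≤ E := le_trans (le_trans (le_max_right _ _) (le_max_left _ _)) hE
  have hE300 : 300 ≤ E := le_trans (le_max_right _ _) hE
  have s1 := hE2 E hEE2
  obtain ⟨v1, v2, v3, v4, v5, v6⟩ := hVP E hEEV
  obtain ⟨hV1, hVlog⟩ := v6 z hz2
  have hPy : P.card ≤ y := by
    have := Finset.card_le_card hP
    rwa [Nat.card_Icc, Nat.add_sub_cancel] at this
  have hD1 := one_le_DN E z y B t hPy (P := P)
  refine ⟨hD1, bd_cw E z B t ht P, fun r _ => gw_nonneg E z y B t hPy r, ?_⟩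
  have hj : 2 * (qE E / 2 * (qE E * mE E)) ≤ E / 16 := by
    refine le_trans ?_ v2
    have h1 : 2 * (qE E / 2) ≤ qE E := Nat.mul_div_le _ 2
    calc 2 * (qE E / 2 * (qE E * mE E)) = 2 * (qE E / 2) * (qE E * mE E) := by ring
      _ ≤ qE E * (qE E * mE E) := Nat.mul_le_mul_right _ h1
      _ = qE E ^ 2 * mE E := by ring
  have hEr : (300 : ℝ) ≤ E := by exact_mod_cast hE300
  have hEpos : (0 : ℝ) < E := by linarith
  have hVpos : 0 < VV z (mE E) (qE E * mE E) := by linarith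
  have hlogE0 : 0 ≤ Real.log E := Real.log_nonneg (by linarith)
  have hMr : (E : ℝ) / 17 ≤ ((E / 16 : ℕ) : ℝ) := by
    have : E ≤ 17 * (E / 16) := by clear hj v2 v4 v5; omega
    have h3 : (E : ℝ) ≤ 17 * ((E / 16 : ℕ) : ℝ) := by exact_mod_cast this
    linarith
  have htail := tail E z y (qE E / 2) t P B hBP hPy hVpos.ne' hj (by
    refine le_trans ?_ hMr
    have h1 : ((P.card : ℝ) + t ^ 2 * B.card) * om y z * (1 / VV z (mE E) (qE E * mE E)) ≤
        c * (E * Real.log E) * (1 / VV z (mE E) (qE E * mE E)) :=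
      mul_le_mul_of_nonneg_right hPo (by positivity)
    have h2 : c * (E * Real.log E) * (1 / VV z (mE E) (qE E * mE E)) ≤ E / 100 := by
      rw [mul_one_div, div_le_iff₀ hVpos]
      have h3 : c * Real.log E ≤ VV z (mE E) (qE E * mE E) / 100 := by
        calc c * Real.log E ≤ c1 / 100 * Real.log E :=
              mul_le_mul_of_nonneg_right hcl hlogE0
          _ ≤ VV z (mE E) (qE E * mE E) / 100 := by linarith
      calc c * (E * Real.log E) = E * (c * Real.log E) := by ring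
        _ ≤ E * (VV z (mE E) (qE E * mE E) / 100) := mul_le_mul_of_nonneg_left h3 hEpos.le
        _ = E / 100 * VV z (mE E) (qE E * mE E) := by ring
    linarith)
  set D := DN E z y B t P with hD
  set Sig := ∑ r ∈ (TE E z P).filter (fun r => E / 16 < cost z r + qE E * mE E),
    gw y z (cw E z B t) r with hSig
  have hD0 : 0 < D := by linarith
  have hSigD : Sig ≤ 1 / 2 ^ (qE E / 2) * D := by
    rw [one_div, ← div_eq_inv_mul, le_div_iff₀ (by positivity), mul_comm]
    exact htail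
  calc (E : ℝ) ^ 2 * Sig ≤ (E : ℝ) ^ 2 * (1 / 2 ^ (qE E / 2) * D) :=
        mul_le_mul_of_nonneg_left hSigD (by positivity)
    _ = (E : ℝ) ^ 2 * (1 / 2 ^ (qE E / 2)) * D := by ring
    _ ≤ η * D := mul_le_mul_of_nonneg_right s1 hD0.le

end Pool.Agent.Helper77.PX
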